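import Pool.Agent.H16.FL.CRI

/-!
# Fibrations over curves (row FIB)
-/

set_option autoImplicit false

open Matrix

namespace Pool.Agent.H16.FL

open Pool.Agent.H64.CC Pool.Agent.H64.FT Pool.Agent.H64.FL

variable {K : Type} [Field K] [CharZero K] {W : Weil K}

theorem pj_inH {n : ℕ} {X : W.Var n} (i : ℕ) (v : W.H X) : W.InH X i (W.pj X i *ᵥ v) := by
  intro a ha
  by_contra h
  apply ha
  unfold Weil.pj
  rw [Matrix.mulVec_diagonal, if_neg h, zero_mul]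

/-- two endomorphisms which agree on all `Hⁱ` are equal -/
theorem ext_inH {n : ℕ} {X : W.Var n} (hW : W.Calculus) {f g : W.Hom X X}
    (h : ∀ i v, W.InH X i v → f *ᵥ v = g *ᵥ v) : f = g := by
  have h1 : ∀ v, f *ᵥ v = g *ᵥ v := by
    intro v
    have h2 : v = ∑ i ∈ Finset.range (2 * W.dim X + 1), W.pj X i *ᵥ v := by
      rw [← Matrix.sum_mulVec, sum_pj X (2 * W.dim X) (hW.deg_le X), Matrix.one_mulVec]
    rw [h2, Matrix.mulVec_sum, Matrix.mulVec_sum]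
    exact Finset.sum_congr rfl fun i _ => h i _ (pj_inH i v)
  ext b a
  have h3 := congrFun (h1 (Pi.single a 1)) b
  rw [Matrix.mulVec_single_one, Matrix.mulVec_single_one] at h3
  simpa using h3

theorem pf_FIB : T_FIB := by
  intro K _ _ W D hW hLef hK hD 𝓕 hT n X Y f hC hd hfix
  have hdim := hT.dim_eq f
  obtain ⟨M, hM, L, hL, hcomm, hspread⟩ := hC.spread
  have he : 1 ≤ W.dim Y := by omega
  obtain ⟨θ, hθ, hθ1⟩ := (hD.low Y).2 L hL
  have hθ2 : θ * L ^ (W.dim Y - 1) * W.pj Y 1 = W.pj Y 1 := hθ1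
  have hLc : L ^ (W.dim Y - 1) ∈ W.cyc Y Y ((W.dim Y : ℤ) - 1) := by
    have := pow_mem hW (hLef.mem Y L hL) (W.dim Y - 1)
    rwa [Nat.cast_sub he, Nat.cast_one] at this
  have hLd := hW.cyc_deg Y Y _ _ hLc
  have hθd := hW.cyc_deg Y Y _ _ hθ
  obtain ⟨l, hl⟩ : ∃ l : W.Hom Y Y, l = W.pj Y 1 * θ := ⟨_, rfl⟩
  have hlm : l ∈ W.cyc Y Y (-((W.dim X - 2 : ℕ) : ℤ)) := by
    have h1 := hW.comp_mem Y Y Y _ 0 θ hθ _ (hK.low Y).2
    have h2 : (-((W.dim X - 2 : ℕ) : ℤ)) = ((1 : ℕ) : ℤ) - W.dim Y + 0 := by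
      omega
    rw [h2, hl]
    exact h1
  have hk : W.dim X - 2 = W.dim Y - 1 := by omega
  -- `l` on `H^(2e - 1)`
  have hl1 : ∀ u, W.InH Y 1 u → l *ᵥ (L ^ (W.dim Y - 1) *ᵥ u) = u := by
    intro u hu
    have h1 : W.pj Y 1 *ᵥ u = u := pj_mulVec 1 u hu
    rw [hl, Matrix.mulVec_mulVec]
    conv_lhs => rw [← h1]
    rw [Matrix.mulVec_mulVec, mul_assoc, mul_assoc, ← mul_assoc θ, hθ2, pj_mul_pj, if_pos rfl, h1]
  have hl0 : ∀ i v, i ≠ 2 * W.dim Y - 1 → W.InH Y i v → l *ᵥ v = 0 := by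
    intro i v hi hv
    rw [hl, ← Matrix.mulVec_mulVec]
    ext a
    unfold Weil.pj
    rw [Matrix.mulVec_diagonal]
    split_ifs with ha
    · rw [one_mul]
      change ∑ b, θ a b * v b = 0
      refine Finset.sum_eq_zero fun b _ => ?_
      by_cases h1 : θ a b = 0
      · rw [h1, zero_mul]
      · by_cases h2 : v b = 0
        · rw [h2, mul_zero]
        · exfalso
          have h3 := hθd a b h1
          have h4 := hv b h2
          omega
    · rw [zero_mul]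
      rfl
  have hgl : ∀ g ∈ 𝓕.mon f, W.comp g l = W.comp l g := by
    intro g hg
    have hgd := hT.mon_deg f g hg
    have hgL : ∀ k : ℕ, g * L ^ k = L ^ k * g := by
      intro k
      have h1 : g * L = L * g := hcomm g hg
      exact ((show Commute g L from h1).pow_right k).eq
    change g * l = l * g
    refine ext_inH hW fun i v hv => ?_
    rw [← Matrix.mulVec_mulVec, ← Matrix.mulVec_mulVec]
    by_cases hi : i = 2 * W.dim Y - 1
    · subst hi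
      obtain ⟨u, hu, hu'⟩ := hLef.surj Y L hL 1 he v hv
      have hu'' : L ^ (W.dim Y - 1) *ᵥ u = v := hu'
      rw [← hu'', hl1 u hu, Matrix.mulVec_mulVec _ g, hgL, ← Matrix.mulVec_mulVec,
        hl1 _ (inH_mulVec hgd hu)]
    · rw [hl0 i v hi hv, hl0 i _ hi (inH_mulVec hgd hv), Matrix.mulVec_zero]
  obtain ⟨Λ, hΛ, hcompat⟩ := hspread (W.dim X - 2) l hlm hgl
  have hMc : M ^ (W.dim X - 2) ∈ W.cyc X X ((W.dim X : ℤ) - 2) := by
    have := pow_mem hW (hLef.mem X M hM) (W.dim X - 2)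
    rwa [Nat.cast_sub (by omega), Nat.cast_ofNat] at this
  have hMd := hW.cyc_deg X X _ _ hMc
  have hΛd := hW.cyc_deg X X _ _ hΛ
  refine ⟨Λ, ?_, fun u hu => ?_⟩
  · have h2 : (-((W.dim X - 2 : ℕ) : ℤ)) = (2 : ℤ) - W.dim X := by omega
    rwa [← h2]
  · have hres : W.InH Y 2 (𝓕.res f *ᵥ u) := inH_mulVec (hT.res_deg f) hu
    have hfx : Fixed W (𝓕.mon f) (𝓕.res f *ᵥ u) := by
      intro g hg
      have h1 := hT.fixed f g hg
      have h2 : g * 𝓕.res f = 𝓕.res f := h1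
      change g *ᵥ (𝓕.res f *ᵥ u) = _
      rw [Matrix.mulVec_mulVec, h2]
    obtain ⟨x, hx, hx'⟩ := hC.lift _ (hfix _ hres hfx) hfx
    have hx'' : 𝓕.res f *ᵥ x = 𝓕.res f *ᵥ u := hx'
    have hxH : W.InH X 2 x := ns_inH hW hx
    have hux : W.InH X 2 (u - x) := (HH W X 2).sub_mem hu hxH
    have hMu : W.InH X (2 * W.dim X - 2) (M ^ (W.dim X - 2) *ᵥ (u - x)) :=
      inH_deg hMd (by omega) hux
    have hpj : W.comp (W.comp l (W.pw L (W.dim X - 2))) (W.pj Y 1) = (1 : K) • W.pj Y 1 := by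
      change l * L ^ (W.dim X - 2) * W.pj Y 1 = _
      rw [one_smul, hk, hl, mul_assoc, mul_assoc, ← mul_assoc θ, hθ2, pj_mul_pj, if_pos rfl]
    have h1 := ((hcompat.2 1 1 hpj).1 (u - x) hux (by
      change 𝓕.res f *ᵥ (u - x) = 0
      rw [Matrix.mulVec_sub, hx'', sub_self]))
    have h2 : Λ *ᵥ (M ^ (W.dim X - 2) *ᵥ (u - x)) - (u - x) ∈ 𝓕.vert f := by
      have h3 : W.ap (W.comp Λ (W.pw M (W.dim X - 2))) (u - x) - (1 : K) • (u - x) =
          Λ *ᵥ (M ^ (W.dim X - 2) *ᵥ (u - x)) - (u - x) := by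
        rw [one_smul, Matrix.mulVec_mulVec]
        rfl
      rw [← h3]
      exact h1
    have h4 : W.InH X 2 (Λ *ᵥ (M ^ (W.dim X - 2) *ᵥ (u - x)) - (u - x)) :=
      (HH W X 2).sub_mem (inH_deg hΛd (by omega) hMu) hux
    have h5 := hT.vert_two f _ h2 h4
    refine ⟨M ^ (W.dim X - 2) *ᵥ (u - x), hMu, ?_⟩
    have h6 : u - Λ *ᵥ (M ^ (W.dim X - 2) *ᵥ (u - x)) =
        x - (Λ *ᵥ (M ^ (W.dim X - 2) *ᵥ (u - x)) - (u - x)) := by abel
    rw [h6]
    exact Submodule.sub_mem _ hx h5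

end Pool.Agent.H16.FL
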